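import Mathlib
import Pool.Agent.R546.GW.Main
import Pool.Agent.R546.GW.Geo
import Pool.Agent.R546.GW.Smooth

/-!
The weak form of the conjecture of Manin, over the rational numbers and for all ample line bundles
in the span of the classes `H_v`, for the varieties
`X = {(x_v)_v : x_u ᵀ M_{u v} x_v = 0 for all edges u v of G}` in the product of the projective
spaces of dimension `n v - 1`, where `G` is any finite graph with vertices `0, …, m - 1` and the
ranks of the bilinear forms are not too small.

* `M u v`: the integer matrix of the equation of the edge `u v`, with `M v u = (M u v)ᵀ`.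
* `dg G v`: the degree of the vertex `v`.
* `cf M x u v = x_u ᵀ M_{u v}`: the coefficient vector of the equation of the edge `u v` as a
  linear equation for `x_v`.
* `Inc G M x`: the point `x` satisfies the equations of all edges, which define `X`.
* `InU G M x`: for every vertex `v` the vectors `cf M x u v`, for the neighbours `u` of `v`, are
  linearly independent.  This is a condition which defines an open set `U` of `X`.
* `RankCond G M`: `rank M_{u v} ≥ deg u + 2 deg v - 1` for all `u`, `v` which are adjacent.
* `Rep v`: `v` is the normalised primitive integer representative of a rational point of a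
  projective space (greatest common divisor of the coordinates `1`, first nonzero coordinate
  positive); `ht v` is its height, the maximum of the absolute values of the coordinates.
* `heightSet G M l T`: the rational points of `U` with `∏ H(x_v) ^ l_v ≤ T`.
* `fuj G n l`: the infimum of all `t` with `t l_v ≥ n_v - deg v` for all `v`, that is, such that
  `t L + K` is in the cone generated by the classes `H_v`, for `L = ∑ l_v H_v` and
  `K = -∑ (n_v - deg v) H_v`.
* `SmoothAt G M z`: the gradients of the equations of the edges are linearly independent at `z`.

The theorem: `U` is not empty; the number of the rational points of `U` of height at most `T` is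
finite and at most `C T ^ (fuj G n l + ε)`, for all `l` with `l_v > 0` and all `ε > 0`; and if every
vertex `v` has at most one neighbour `u < v`, and the rows of `M_{u v}` are linearly independent
for it, then the Jacobian criterion holds at all complex points with all `z_v ≠ 0`.
-/

namespace Pool.Agent.Results.MP_18ea5f_nt.GraphsOfBilinearForms

open Pool.Agent.R546.GW
open Matrix

theorem result {m : ℕ} (hm : 0 < m) {n : Fin m → ℕ} (G : SimpleGraph (Fin m))
    (M : ∀ u v : Fin m, Matrix (Fin (n u)) (Fin (n v)) ℤ) (hM : ∀ u v, M v u = (M u v)ᵀ)
    (hR : RankCond G M) (hn : ∀ v, dg G v + 2 ≤ n v) :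
    (∃ x : ∀ v, Fin (n v) → ℤ, Inc G M x ∧ InU G M x ∧ ∀ v, x v ≠ 0) ∧
    (∀ l : Fin m → ℝ, (∀ v, 0 < l v) → ∀ ε : ℝ, 0 < ε → ∃ C : ℝ, ∀ T : ℝ, 1 ≤ T →
      (heightSet G M l T).Finite ∧
      ((heightSet G M l T).ncard : ℝ) ≤ C * T ^ (fuj G n l + ε)) ∧
    ((∀ v u u', G.Adj v u → G.Adj v u' → u < v → u' < v → u = u') →
      (∀ u v, G.Adj u v → u < v → LinearIndependent ℤ (fun i => M u v i)) →
      ∀ z : ∀ v, Fin (n v) → ℂ, (∀ v, z v ≠ 0) → SmoothAt G M z) :=
  ⟨exists_point hM hR (fun v => by have := hn v; omega),
    fun l hl ε hε => upper hm hM hR hn l hl ε hε,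
    fun hF hI z hz => smooth_forest hF hI z hz⟩

end Pool.Agent.Results.MP_18ea5f_nt.GraphsOfBilinearForms
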