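import Mathlib
import Pool.Agent.R38.NC.Tri
import Pool.Agent.R38.NC.Bas2
import Pool.Agent.R38.NC.Par
import Pool.Agent.R38.NC.Dvd
import Pool.Agent.R38.NC.Coni
import Pool.Agent.R38.NC.Sum
import Pool.Agent.R38.NC.Nst
import Pool.Agent.R38.NC.Lat
import Pool.Agent.R38.NC.Geo
import Pool.Agent.R38.NC.Box
import Pool.Agent.R38.NC.Hts

/-!
The weak form of the conjecture of Manin for the smooth divisors `X` of type `(1,2)` in the product
of two projective planes over the rational numbers without double lines (a deformation family of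
Fano threefolds) and all big and nef line bundles `L`.

* `M 0, M 1, M 2`: symmetric integer `3 × 3` matrices; `X` is given by `qf (gm M t) x = 0`, where
  `gm M t = t₀ M₀ + t₁ M₁ + t₂ M₂` and `qf A x = xᵀ A x`: a net of conics with parameter `t`.
* `Smooth M`: at every complex point `(t, x)` of `X` some partial derivative does not vanish (the
  partial derivatives are the `cq M x i = xᵀ M i x` and twice the coordinates of `(gm M t) x`).
* `NoDouble M`: for no complex `t ≠ 0` do all `2 × 2` minors (entries of the adjugate) of `gm M t`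
  vanish, i.e. no conic of the net is a double line.
* `U`: the points `(t, x)` of `X` such that the conic with parameter `t` is smooth.
* `Rep v`: `v` is the normalised primitive integer representative of a rational point of the
  plane; `ht v` is its height, the maximum of the absolute values of the coordinates.
* `fuj l` is the infimum of all `s` such that `s L + K` is in the cone generated by the classes
  `(1,0)` and `(0,1)`, for `L = (l 0, l 1)` and `K = (-2,-1)`.

The theorem: `U` is not empty, and for all `l` with `l 0, l 1 > 0` and all `ε > 0` the number of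
rational points of `U` with `H(t) ^ l 0 * H(x) ^ l 1 ≤ T` is finite and at most
`C T ^ (fuj l + ε)`.
-/

namespace Pool.Agent.Results.MP_18ea5f_nt.NetsOfConics

open Pool.Agent.R38.NC
open Pool.Agent.H548.WM (ht Rep)

theorem result (M : Fin 3 → Matrix (Fin 3) (Fin 3) ℤ) (hM : ∀ i, (M i).IsSymm) (hs : Smooth M)
    (hd : NoDouble M) :
    (∃ t x : Fin 3 → ℂ, t ≠ 0 ∧ x ≠ 0 ∧ qf (gm M t) x = 0 ∧ (gm M t).det ≠ 0) ∧
    ∀ l : Fin 2 → ℝ, (∀ i, 0 < l i) → ∀ ε : ℝ, 0 < ε → ∃ C : ℝ, ∀ T : ℝ, 1 ≤ T →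
      {t : (Fin 3 → ℤ) × (Fin 3 → ℤ) | Rep t.1 ∧ Rep t.2 ∧ qf (gm M t.1) t.2 = 0 ∧
        (gm M t.1).det ≠ 0 ∧ (ht t.1 : ℝ) ^ l 0 * (ht t.2 : ℝ) ^ l 1 ≤ T}.Finite ∧
      ({t : (Fin 3 → ℤ) × (Fin 3 → ℤ) | Rep t.1 ∧ Rep t.2 ∧ qf (gm M t.1) t.2 = 0 ∧
        (gm M t.1).det ≠ 0 ∧ (ht t.1 : ℝ) ^ l 0 * (ht t.2 : ℝ) ^ l 1 ≤ T}.ncard : ℝ) ≤
        C * T ^ (fuj l + ε) := by
  obtain ⟨h1, h2, h3⟩ := geo_ M hM hs hd
  exact ⟨h3, upper M (box_ (con_ tri_ bas2_ par_ dvd_) sum_ nst_ (lat_ tri_ nst_) M hM h1 hd h2)⟩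

end Pool.Agent.Results.MP_18ea5f_nt.NetsOfConics
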