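import Mathlib
import Pool.Agent.R38.QP.Conic
import Pool.Agent.R38.QP.Hts
import Pool.Agent.R38.QR.Uni
import Pool.Agent.R38.QR.Pln
import Pool.Agent.R38.QR.Sum4
import Pool.Agent.R38.QR.Sumd
import Pool.Agent.R38.QR.Iso
import Pool.Agent.R38.QR.Tan
import Pool.Agent.R38.QR.Sie
import Pool.Agent.R38.QR.Qua
import Pool.Agent.R38.QR.Lat4
import Pool.Agent.R38.QR.Box
import Pool.Agent.R38.QR.Geo
import Pool.Agent.R38.NC.Tri
import Pool.Agent.R38.NC.Bas2
import Pool.Agent.R38.NC.Par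
import Pool.Agent.R38.NC.Dvd

/-!
The weak form of the conjecture of Manin for the Fano fourfolds `X` of the pairs `(x, y)` of a point
`x` of a smooth quadric surface `Q` over the rational numbers and a plane `y` through `x`, where the
discriminant of `Q` is not a square (so that the two rulings of `Q` are conjugate and the Picard
number of `X` is 2), and all big and nef line bundles `L`.

* `q`: a symmetric integer `4 × 4` matrix whose determinant is not a square; `q4 q x = xᵀ q x`,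
  and `Q` is the quadric surface `q4 q x = 0`. The plane with the coordinates `y` is `x ⬝ᵥ y = 0`.
* `X` is the divisor `x ⬝ᵥ y = 0` in `Q × ℙ³`; `-K = (1, 3)`.
* `U`: the points `(x, y)` of `X` such that the plane `y` is not tangent to `Q`, i.e.
  `q4 q.adjugate y ≠ 0`.
* `Rep v`: `v` is the normalised primitive integer representative of a rational point of a
  projective space; `ht v` is its height, the maximum of the absolute values of the coordinates.
* `fuj l` is the infimum of all `s` such that `s L + K` is in the cone generated by the classes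
  `(1,0)` and `(0,1)`, for `L = (l 0, l 1)` and `K = (-1,-3)`.

The theorem: `U` is not empty, and for all `l` with `l 0, l 1 > 0` and all `ε > 0` the number of
rational points of `U` with `H(x) ^ l 0 * H(y) ^ l 1 ≤ T` is finite and at most
`C T ^ (fuj l + ε)`.
-/

namespace Pool.Agent.Results.MP_18ea5f_nt.QuadricPointsAndPlanes

open Matrix
open Pool.Agent.R38.QP
open Pool.Agent.R38.NC (tri_ bas2_ par_ dvd_)
open Pool.Agent.H548.WM (ht Rep)

theorem result (q : Matrix (Fin 4) (Fin 4) ℤ) (hq : q.IsSymm) (hd : ¬ IsSquare q.det) :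
    (∃ x y : Fin 4 → ℂ, x ≠ 0 ∧ y ≠ 0 ∧ q4 (q.map (Int.castRingHom ℂ)) x = 0 ∧ x ⬝ᵥ y = 0 ∧
      q4 (q.adjugate.map (Int.castRingHom ℂ)) y ≠ 0) ∧
    ∀ l : Fin 2 → ℝ, (∀ i, 0 < l i) → ∀ ε : ℝ, 0 < ε → ∃ C : ℝ, ∀ T : ℝ, 1 ≤ T →
      {t : (Fin 4 → ℤ) × (Fin 4 → ℤ) | Rep t.1 ∧ Rep t.2 ∧ q4 q t.1 = 0 ∧ t.1 ⬝ᵥ t.2 = 0 ∧
        q4 q.adjugate t.2 ≠ 0 ∧ (ht t.1 : ℝ) ^ l 0 * (ht t.2 : ℝ) ^ l 1 ≤ T}.Finite ∧
      ({t : (Fin 4 → ℤ) × (Fin 4 → ℤ) | Rep t.1 ∧ Rep t.2 ∧ q4 q t.1 = 0 ∧ t.1 ⬝ᵥ t.2 = 0 ∧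
        q4 q.adjugate t.2 ≠ 0 ∧ (ht t.1 : ℝ) ^ l 0 * (ht t.2 : ℝ) ^ l 1 ≤ T}.ncard : ℝ) ≤
        C * T ^ (fuj l + ε) := by
  have hd0 : q.det ≠ 0 := by
    intro h
    apply hd
    rw [h]
    exact ⟨0, by ring⟩
  have hP : S_PLN := pln_ (con2_ tri_ bas2_ par_ dvd_) uni_
  have hS : S_SUMD := sumd_ sum4_
  have hQ : S_QUA := qua_ hP hS (tan_ iso_) sie_
  exact ⟨geo_ q hq hd0, upper q (box_ hP hS hQ lat4_ q hq hd)⟩

end Pool.Agent.Results.MP_18ea5f_nt.QuadricPointsAndPlanes
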